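import Mathlib
import Pool.Agent.D0H11.TW.Stm

/-! Project TW, module 11 (CLS): every prime `> 7` is in a good class. -/

set_option autoImplicit false

namespace Pool.Agent.D0H15.TW

open Pool.Agent.D0H11.TW

/-- representations modulo `16` -/
def r16 (r : ℕ) : ℕ × ℕ × ℕ × ℕ :=
  match r % 16 with
  | 1 => (1, 0, 0, 0)
  | 13 => (1, 2, 0, 0)
  | 5 => (1, 0, 2, 0)
  | 9 => (3, 0, 0, 0)
  | 3 => (0, 1, 0, 0)
  | 7 => (2, 1, 0, 0)
  | 11 => (0, 3, 0, 0)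
  | 15 => (0, 1, 0, 2)
  | _ => (0, 0, 0, 0)

/-- representations modulo `3` -/
def r3 (r : ℕ) : ℕ × ℕ × ℕ × ℕ :=
  match r % 3 with
  | 1 => (1, 0, 0, 0)
  | _ => (0, 0, 1, 0)

/-- representations modulo `5` -/
def r5 (r : ℕ) : ℕ × ℕ × ℕ × ℕ :=
  match r % 5 with
  | 1 => (1, 0, 0, 0)
  | 4 => (2, 0, 0, 0)
  | 3 => (0, 1, 0, 0)
  | _ => (0, 0, 0, 1)

/-- representations modulo `7` -/
def r7 (r : ℕ) : ℕ × ℕ × ℕ × ℕ :=
  match r % 7 with
  | 1 => (1, 0, 0, 0)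
  | 2 => (3, 0, 0, 0)
  | 4 => (2, 0, 0, 0)
  | 3 => (0, 1, 0, 0)
  | 6 => (0, 3, 0, 0)
  | _ => (0, 2, 0, 0)

/-- Chinese remainder theorem -/
def comb (a b c d : ℕ) : ℕ := (105 * a + 280 * b + 336 * c + 120 * d) % 840

/-- the good class -/
def uu (r : ℕ) : ℕ × ℕ × ℕ × ℕ :=
  (comb (r16 r).1 (r3 r).1 (r5 r).1 (r7 r).1,
   comb (r16 r).2.1 (r3 r).2.1 (r5 r).2.1 (r7 r).2.1,
   comb (r16 r).2.2.1 (r3 r).2.2.1 (r5 r).2.2.1 (r7 r).2.2.1,
   comb (r16 r).2.2.2 (r3 r).2.2.2 (r5 r).2.2.2 (r7 r).2.2.2)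

/-- the check -/
def chk (r : ℕ) : Bool :=
  Nat.gcd r 210 != 1 ||
  ((((uu r).1 ^ 2 + 3 * (uu r).2.1 ^ 2 + 5 * (uu r).2.2.1 ^ 2 + 7 * (uu r).2.2.2 ^ 2) % 1680 == r) &&
  ([2, 3, 5, 7].all fun l => Nat.gcd (uu r).1 l == 1 || Nat.gcd (3 * (uu r).2.1) l == 1 ||
    Nat.gcd (5 * (uu r).2.2.1) l == 1 || Nat.gcd (7 * (uu r).2.2.2) l == 1))

theorem chk_all : (List.range 1680).all chk = true := by decide +kernel

theorem comb_lt (a b c d : ℕ) : comb a b c d < 840 := Nat.mod_lt _ (by norm_num)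

theorem t_CLS : S_CLS := by
  intro p hp h7
  set r := p % 1680 with hr
  have hr1 : r < 1680 := Nat.mod_lt _ (by norm_num)
  have hc := List.all_eq_true.1 chk_all r (List.mem_range.2 hr1)
  have hcop : Nat.gcd r 210 = 1 := by
    have h1 : Nat.Coprime p 210 := by
      rw [show (210 : ℕ) = 2 * 3 * 5 * 7 by norm_num]
      have h2 : ∀ l : ℕ, l.Prime → l ≤ 7 → Nat.Coprime p l := by
        intro l hl hl7
        rw [Nat.coprime_primes hp hl]
        omega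
      exact ((((h2 2 (by norm_num) (by norm_num)).mul_right (h2 3 (by norm_num) (by norm_num))).mul_right
        (h2 5 (by norm_num) (by norm_num))).mul_right (h2 7 (by norm_num) (by norm_num)))
    have h3 : Nat.gcd r 210 = Nat.gcd p 210 := by
      rw [hr]
      have e : (1680 : ℕ) = 210 * 8 := by norm_num
      conv_rhs => rw [← Nat.mod_add_div p 1680, e, mul_assoc]
      rw [Nat.gcd_add_mul_left_left]
    rw [h3]
    exact h1
  unfold chk at hc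
  rw [hcop] at hc
  simp only [bne_self_eq_false, Bool.false_or, Bool.and_eq_true, beq_iff_eq, List.all_cons, List.all_nil,
    Bool.and_true, Bool.or_eq_true] at hc
  obtain ⟨h1, h2, h3, h5, h7'⟩ := hc
  set v := uu r with hv
  have hb : v.1 < 840 ∧ v.2.1 < 840 ∧ v.2.2.1 < 840 ∧ v.2.2.2 < 840 :=
    ⟨comb_lt _ _ _ _, comb_lt _ _ _ _, comb_lt _ _ _ _, comb_lt _ _ _ _⟩
  obtain ⟨b0, b1, b2, b3⟩ := hb
  refine ⟨![(v.1 : ℤ), (v.2.1 : ℤ), (v.2.2.1 : ℤ), (v.2.2.2 : ℤ)], ⟨?_, ?_⟩, ?_⟩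
  · intro i
    fin_cases i <;> simp <;> omega
  · intro l hl
    have key : ∀ m : ℕ, (((Nat.gcd v.1 m = 1 ∨ Nat.gcd (3 * v.2.1) m = 1) ∨ Nat.gcd (5 * v.2.2.1) m = 1) ∨
        Nat.gcd (7 * v.2.2.2) m = 1) →
        ∃ i, IsCoprime (cc i * (![(v.1 : ℤ), (v.2.1 : ℤ), (v.2.2.1 : ℤ), (v.2.2.2 : ℤ)] : Fin 4 → ℤ) i) (m : ℤ) := by
      intro m hm
      rcases hm with ((hm | hm) | hm) | hm
      · refine ⟨0, ?_⟩
        have := Nat.isCoprime_iff_coprime.2 hm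
        simpa [cc] using this
      · refine ⟨1, ?_⟩
        have := Nat.isCoprime_iff_coprime.2 hm
        push_cast at this
        simpa [cc] using this
      · refine ⟨2, ?_⟩
        have := Nat.isCoprime_iff_coprime.2 hm
        push_cast at this
        simpa [cc] using this
      · refine ⟨3, ?_⟩
        have := Nat.isCoprime_iff_coprime.2 hm
        push_cast at this
        simpa [cc] using this
    simp only [Finset.mem_insert, Finset.mem_singleton] at hl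
    rcases hl with rfl | rfl | rfl | rfl
    · exact key 2 h2
    · exact key 3 h3
    · exact key 5 h5
    · exact key 7 h7'
  · have e : Qf ![(v.1 : ℤ), (v.2.1 : ℤ), (v.2.2.1 : ℤ), (v.2.2.2 : ℤ)] =
        ((v.1 ^ 2 + 3 * v.2.1 ^ 2 + 5 * v.2.2.1 ^ 2 + 7 * v.2.2.2 ^ 2 : ℕ) : ℤ) := by
      unfold Qf cc
      rw [Fin.sum_univ_four]
      simp
    rw [e]
    have h4 : (v.1 ^ 2 + 3 * v.2.1 ^ 2 + 5 * v.2.2.1 ^ 2 + 7 * v.2.2.2 ^ 2) ≡ p [MOD 1680] := by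
      unfold Nat.ModEq
      rw [h1]
    exact (Nat.modEq_iff_dvd.1 h4)

end Pool.Agent.D0H15.TW
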