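import Mathlib
import Pool.Agent.D0H11.TW.Stm

/-! Project TW, module 6 (EQUI): two residue classes modulo `q`. -/

set_option autoImplicit false

namespace Pool.Agent.D0H15.TW

open Finset hiding box
open Pool.Agent.D0H11.TW

lemma mem_box {T : ℕ} {t : Fin 4 → ℤ} : t ∈ box T ↔ ∀ i, 0 ≤ t i ∧ t i < T := by
  unfold box
  rw [Fintype.mem_piFinset]
  simp only [mem_Ico]

lemma card_slice (T : ℕ) (i : Fin 4) (B : Finset ℤ) :
    (Fintype.piFinset (fun j : Fin 4 => if j = i then B else Ico (0 : ℤ) T)).card = B.card * T ^ 3 := by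
  rw [Fintype.card_piFinset, Fin.prod_univ_four]
  have h : (Ico (0 : ℤ) T).card = T := by simp
  fin_cases i <;> simp <;> ring

lemma card_box (T : ℕ) : (box T).card = T ^ 4 := by
  unfold box
  rw [Fintype.card_piFinset, Fin.prod_univ_four]
  simp
  ring

lemma eq_of_dvd {q a : ℤ} (h : q ∣ a) (h1 : |a| < q) : a = 0 := by
  by_contra h0
  have h2 := Int.le_of_dvd (abs_pos.2 h0) ((dvd_abs q a).2 h)
  omega

open Classical in
lemma bad_card (T q : ℕ) (hq : 1 ≤ q) (s d : Fin 4 → ℤ) (hs : ∀ i, 0 ≤ s i ∧ s i < q)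
    (hd : ∀ i, -(q : ℤ) < d i ∧ d i < q) :
    ((box T).filter (fun t => (∀ i, (q : ℤ) ∣ t i - s i) ∧ ¬ (t + d) ∈ box T)).card ≤ 8 * T ^ 3 := by
  have hqz : (0 : ℤ) < q := by exact_mod_cast hq
  set rr : Fin 4 → ℤ := fun i => (T : ℤ) - q + ((s i - (T - q)) % q) with hrr
  have hr1 : ∀ i, (T : ℤ) - q ≤ rr i ∧ rr i < T := by
    intro i
    have h1 := Int.emod_nonneg (s i - (T - q)) hqz.ne'
    have h2 := Int.emod_lt_of_pos (s i - (T - q)) hqz
    simp only [hrr]
    omega
  have hr2 : ∀ i, (q : ℤ) ∣ s i - rr i := by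
    intro i
    have h1 := Int.mul_ediv_add_emod (s i - (T - q)) q
    refine ⟨(s i - (T - q)) / q, ?_⟩
    simp only [hrr]
    linarith
  have hsub : (box T).filter (fun t => (∀ i, (q : ℤ) ∣ t i - s i) ∧ ¬ (t + d) ∈ box T) ⊆
      (univ : Finset (Fin 4)).biUnion (fun i =>
        Fintype.piFinset (fun j : Fin 4 => if j = i then ({s i, rr i} : Finset ℤ) else Ico (0 : ℤ) T)) := by
    intro t ht
    rw [mem_filter] at ht
    obtain ⟨h1, h2, h3⟩ := ht
    rw [mem_box] at h1 h3
    push Not at h3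
    obtain ⟨i, hi⟩ := h3
    rw [mem_biUnion]
    refine ⟨i, mem_univ _, ?_⟩
    rw [Fintype.mem_piFinset]
    intro j
    by_cases hj : j = i
    · subst hj
      rw [if_pos rfl, mem_insert, mem_singleton]
      obtain ⟨a1, a2⟩ := h1 j
      obtain ⟨b1, b2⟩ := hs j
      obtain ⟨c1, c2⟩ := hd j
      obtain ⟨e1, e2⟩ := hr1 j
      have e3 : (t + d) j = t j + d j := rfl
      rw [e3] at hi
      by_cases h0 : 0 ≤ t j + d j
      · right
        have h4 := hi h0
        have h5 : (q : ℤ) ∣ t j - rr j := by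
          have := dvd_add (h2 j) (hr2 j)
          rwa [show t j - s j + (s j - rr j) = t j - rr j by ring] at this
        have h6 := eq_of_dvd h5 (by rw [abs_lt]; constructor <;> omega)
        omega
      · left
        have h6 := eq_of_dvd (h2 j) (by rw [abs_lt]; constructor <;> omega)
        omega
    · rw [if_neg hj, mem_Ico]
      exact h1 j
  refine (card_le_card hsub).trans (card_biUnion_le.trans ?_)
  calc ∑ i : Fin 4, (Fintype.piFinset (fun j : Fin 4 => if j = i then ({s i, rr i} : Finset ℤ) else Ico (0 : ℤ) T)).card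
      = ∑ i : Fin 4, ({s i, rr i} : Finset ℤ).card * T ^ 3 := by
        refine sum_congr rfl fun i _ => card_slice T i _
    _ ≤ ∑ _i : Fin 4, 2 * T ^ 3 := by
        refine sum_le_sum fun i _ => Nat.mul_le_mul_right _ card_le_two
    _ = 8 * T ^ 3 := by
        rw [sum_const, card_univ, Fintype.card_fin, smul_eq_mul]
        ring

lemma wt_bd {T : ℕ} (hT : 1 ≤ T) {u t : Fin 4 → ℤ} (hu : InU u) (ht : t ∈ box T) :
    0 ≤ wt u t ∧ wt u t ≤ 2100 * T := by
  obtain ⟨h1, h2⟩ := (mem_box.1 ht) 0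
  obtain ⟨h3, h4⟩ := hu 0
  unfold wt
  constructor
  · exact_mod_cast (by omega : (0 : ℤ) ≤ 840 * t 0 + 420 + u 0)
  · have hT' : (1 : ℤ) ≤ T := by exact_mod_cast hT
    have : (840 * t 0 + 420 + u 0 : ℤ) ≤ 2100 * T := by omega
    exact_mod_cast this

lemma qf_diff {T q : ℕ} (hq : q ≤ T) {u t d : Fin 4 → ℤ} (hu : InU u) (ht : t ∈ box T) (htd : t + d ∈ box T)
    (hd : ∀ i, -(q : ℤ) < d i ∧ d i < q) : |qf u (t + d) - qf u t| ≤ 26880 * (q * T) := by
  have hi : ∀ i, |ph (u i) ((t + d) i) - ph (u i) (t i)| ≤ 1680 * (q * T) := by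
    intro i
    obtain ⟨a1, a2⟩ := (mem_box.1 ht) i
    obtain ⟨b1, b2⟩ := (mem_box.1 htd) i
    obtain ⟨c1, c2⟩ := hu i
    obtain ⟨e1, e2⟩ := hd i
    have e3 : (t + d) i = t i + d i := rfl
    rw [e3] at b1 b2 ⊢
    have hT' : (1 : ℤ) ≤ T := by omega
    have h1 : ph (u i) (t i + d i) - ph (u i) (t i) = d i * (420 * (2 * t i + d i) + u i) := by
      unfold ph
      ring
    rw [h1, abs_mul]
    have h2 : |d i| ≤ q := by rw [abs_le]; constructor <;> omega
    have h3 : |420 * (2 * t i + d i) + u i| ≤ 1680 * T := by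
      rw [abs_of_nonneg (by omega)]
      omega
    calc |d i| * |420 * (2 * t i + d i) + u i| ≤ q * (1680 * T) := by
          apply mul_le_mul h2 h3 (abs_nonneg _) (by positivity)
      _ = _ := by ring
  have h2 : qf u (t + d) - qf u t = ∑ i, cc i * (ph (u i) ((t + d) i) - ph (u i) (t i)) := by
    unfold qf
    rw [← sum_sub_distrib]
    exact sum_congr rfl fun i _ => by ring
  rw [h2]
  refine (abs_sum_le_sum_abs _ _).trans ?_
  rw [Fin.sum_univ_four]
  simp only [abs_mul]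
  have c0 : |cc 0| = 1 := by simp [cc]
  have c1 : |cc 1| = 3 := by simp [cc]
  have c2 : |cc 2| = 5 := by simp [cc]
  have c3 : |cc 3| = 7 := by simp [cc]
  rw [c0, c1, c2, c3]
  have := hi 0
  have := hi 1
  have := hi 2
  have := hi 3
  linarith

open Classical in
/-- the comparison, for reduced residues -/
lemma equi_red {C₀ : ℝ} (hC₀ : 0 < C₀) {T q : ℕ} {u : Fin 4 → ℤ} {η : ℝ} {m : ℤ} (hT : 1 ≤ T) (hq : 1 ≤ q)
    (hqT : q ≤ T) (hu : InU u) (hη : 0 < η) (hK1 : ∀ x, |KK η x| ≤ 4 * η)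
    (hK2 : ∀ x y, |KK η x - KK η y| ≤ C₀ * η ^ 2 * |x - y|)
    (s s' : Fin 4 → ℤ) (hs : ∀ i, 0 ≤ s i ∧ s i < q) (hs' : ∀ i, 0 ≤ s' i ∧ s' i < q) :
    |∑ t ∈ (box T).filter (fun t => ∀ i, (q : ℤ) ∣ t i - s i), wt u t * KK η (m - qf u t) -
      ∑ t ∈ (box T).filter (fun t => ∀ i, (q : ℤ) ∣ t i - s' i), wt u t * KK η (m - qf u t)| ≤
    (200000 + 100000000 * C₀) * q * (T : ℝ) ^ 4 * (η + (T : ℝ) ^ 2 * η ^ 2) := by
  set d : Fin 4 → ℤ := s' - s with hd
  have hdi : ∀ i, d i = s' i - s i := fun i => rfl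
  have hdb : ∀ i, -(q : ℤ) < d i ∧ d i < q := by
    intro i
    have := hs i
    have := hs' i
    rw [hdi]
    constructor <;> omega
  have hdb' : ∀ i, -(q : ℤ) < (-d) i ∧ (-d) i < q := by
    intro i
    have := hdb i
    have e : (-d) i = -(d i) := rfl
    rw [e]
    constructor <;> omega
  set f : (Fin 4 → ℤ) → ℝ := fun t => wt u t * KK η (m - qf u t) with hf
  have hT0 : (1 : ℝ) ≤ T := by exact_mod_cast hT
  have hq0 : (1 : ℝ) ≤ q := by exact_mod_cast hq
  have hfb : ∀ t ∈ box T, |f t| ≤ 8400 * T * η := by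
    intro t ht
    obtain ⟨h1, h2⟩ := wt_bd hT hu ht
    simp only [hf]
    rw [abs_mul, abs_of_nonneg h1]
    calc wt u t * |KK η (m - qf u t)| ≤ (2100 * T) * (4 * η) :=
          mul_le_mul h2 (hK1 _) (abs_nonneg _) (by positivity)
      _ = _ := by ring
  -- splitting
  have hsplit : ∀ (s : Fin 4 → ℤ) (d : Fin 4 → ℤ),
      ∑ t ∈ (box T).filter (fun t => ∀ i, (q : ℤ) ∣ t i - s i), f t =
      ∑ t ∈ (box T).filter (fun t => (∀ i, (q : ℤ) ∣ t i - s i) ∧ (t + d) ∈ box T), f t +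
      ∑ t ∈ (box T).filter (fun t => (∀ i, (q : ℤ) ∣ t i - s i) ∧ ¬ (t + d) ∈ box T), f t := by
    intro s d
    rw [← filter_filter, ← filter_filter]
    exact (sum_filter_add_sum_filter_not _ _ _).symm
  have hbad : ∀ (s d : Fin 4 → ℤ), (∀ i, 0 ≤ s i ∧ s i < q) → (∀ i, -(q : ℤ) < d i ∧ d i < q) →
      |∑ t ∈ (box T).filter (fun t => (∀ i, (q : ℤ) ∣ t i - s i) ∧ ¬ (t + d) ∈ box T), f t| ≤
        67200 * (T : ℝ) ^ 4 * η := by
    intro s d hs hd
    refine (abs_sum_le_sum_abs _ _).trans ?_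
    refine (sum_le_card_nsmul _ _ (8400 * T * η) fun t ht => hfb t (mem_filter.1 ht).1).trans ?_
    rw [nsmul_eq_mul]
    have h1 := bad_card T q hq s d hs hd
    have h2 : ((((box T).filter (fun t => (∀ i, (q : ℤ) ∣ t i - s i) ∧ ¬ (t + d) ∈ box T)).card : ℕ) : ℝ) ≤
        8 * (T : ℝ) ^ 3 := by exact_mod_cast h1
    calc _ ≤ 8 * (T : ℝ) ^ 3 * (8400 * T * η) := mul_le_mul_of_nonneg_right h2 (by positivity)
      _ = _ := by ring
  -- the translation
  have htrans : ∑ t ∈ (box T).filter (fun t => (∀ i, (q : ℤ) ∣ t i - s' i) ∧ (t + -d) ∈ box T), f t =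
      ∑ t ∈ (box T).filter (fun t => (∀ i, (q : ℤ) ∣ t i - s i) ∧ (t + d) ∈ box T), f (t + d) := by
    refine sum_nbij' (fun t => t + -d) (fun t => t + d) ?_ ?_ ?_ ?_ ?_
    · intro t ht
      rw [mem_filter] at ht
      rw [mem_filter]
      obtain ⟨h1, h2, h3⟩ := ht
      refine ⟨h3, fun i => ?_, ?_⟩
      · have e : (t + -d) i - s i = t i - s' i := by
          have : (t + -d) i = t i - (s' i - s i) := rfl
          rw [this]; ring
        rw [e]
        exact h2 i
      · rw [neg_add_cancel_right]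
        exact h1
    · intro t ht
      rw [mem_filter] at ht
      rw [mem_filter]
      obtain ⟨h1, h2, h3⟩ := ht
      refine ⟨h3, fun i => ?_, ?_⟩
      · have e : (t + d) i - s' i = t i - s i := by
          have : (t + d) i = t i + (s' i - s i) := rfl
          rw [this]; ring
        rw [e]
        exact h2 i
      · rw [add_neg_cancel_right]
        exact h1
    · intro t _
      exact neg_add_cancel_right t d
    · intro t _
      exact add_neg_cancel_right t d
    · intro t _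
      rw [neg_add_cancel_right]
  have hgood : |∑ t ∈ (box T).filter (fun t => (∀ i, (q : ℤ) ∣ t i - s i) ∧ (t + d) ∈ box T), (f t - f (t + d))| ≤
      (T : ℝ) ^ 4 * (3360 * q * η + 56448000 * C₀ * (q * T ^ 2 * η ^ 2)) := by
    refine (abs_sum_le_sum_abs _ _).trans ?_
    refine (sum_le_card_nsmul _ _ (3360 * q * η + 56448000 * C₀ * (q * T ^ 2 * η ^ 2)) fun t ht => ?_).trans ?_
    · rw [mem_filter] at ht
      obtain ⟨h1, -, h3⟩ := ht
      obtain ⟨w1, w2⟩ := wt_bd hT hu h1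
      obtain ⟨w3, w4⟩ := wt_bd hT hu h3
      have e1 : f t - f (t + d) = (wt u t - wt u (t + d)) * KK η (m - qf u t) +
          wt u (t + d) * (KK η (m - qf u t) - KK η (m - qf u (t + d))) := by
        simp only [hf]
        ring
      rw [e1]
      refine (abs_add_le _ _).trans ?_
      rw [abs_mul, abs_mul, abs_of_nonneg w3]
      have e2 : |wt u t - wt u (t + d)| ≤ 840 * q := by
        have : wt u t - wt u (t + d) = ((-(840 * d 0) : ℤ) : ℝ) := by
          unfold wt
          have : (t + d) 0 = t 0 + d 0 := rfl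
          rw [this]
          push_cast
          ring
        rw [this]
        have h4 : |-(840 * d 0)| ≤ 840 * (q : ℤ) := by
          have := hdb 0
          rw [abs_le]
          constructor <;> omega
        exact_mod_cast h4
      have e3 : |KK η (m - qf u t) - KK η (m - qf u (t + d))| ≤ C₀ * η ^ 2 * (26880 * (q * T)) := by
        refine (hK2 _ _).trans ?_
        apply mul_le_mul_of_nonneg_left _ (by positivity)
        have h4 : ((m : ℝ) - qf u t) - ((m : ℝ) - qf u (t + d)) = ((qf u (t + d) - qf u t : ℤ) : ℝ) := by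
          push_cast
          ring
        rw [h4]
        have h5 := qf_diff hqT hu h1 h3 hdb
        exact_mod_cast h5
      calc |wt u t - wt u (t + d)| * |KK η (m - qf u t)| +
            wt u (t + d) * |KK η (m - qf u t) - KK η (m - qf u (t + d))|
          ≤ (840 * q) * (4 * η) + (2100 * T) * (C₀ * η ^ 2 * (26880 * (q * T))) := by
            apply add_le_add
            · exact mul_le_mul e2 (hK1 _) (abs_nonneg _) (by positivity)
            · exact mul_le_mul w4 e3 (abs_nonneg _) (by positivity)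
        _ = _ := by ring
    · rw [nsmul_eq_mul]
      apply mul_le_mul_of_nonneg_right _ (by positivity)
      have h1 := card_le_card (filter_subset (fun t => (∀ i, (q : ℤ) ∣ t i - s i) ∧ (t + d) ∈ box T) (box T))
      rw [card_box] at h1
      exact_mod_cast h1
  have e1 := hsplit s d
  have e2 := hsplit s' (-d)
  have b1 := hbad s d hs hdb
  have b2 := hbad s' (-d) hs' hdb'
  change |∑ t ∈ (box T).filter (fun t => ∀ i, (q : ℤ) ∣ t i - s i), f t -
      ∑ t ∈ (box T).filter (fun t => ∀ i, (q : ℤ) ∣ t i - s' i), f t| ≤ _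
  rw [e1, e2, htrans]
  rw [sum_sub_distrib] at hgood
  have hfin : 67200 * (T : ℝ) ^ 4 * η + 67200 * (T : ℝ) ^ 4 * η +
      (T : ℝ) ^ 4 * (3360 * q * η + 56448000 * C₀ * (q * T ^ 2 * η ^ 2)) ≤
      (200000 + 100000000 * C₀) * q * (T : ℝ) ^ 4 * (η + (T : ℝ) ^ 2 * η ^ 2) := by
    have p1 : 0 ≤ (T : ℝ) ^ 4 * η := by positivity
    have p2 : (T : ℝ) ^ 4 * η ≤ (q : ℝ) * ((T : ℝ) ^ 4 * η) := by nlinarith
    have p3 : 0 ≤ (q : ℝ) * ((T : ℝ) ^ 4 * ((T : ℝ) ^ 2 * η ^ 2)) := by positivity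
    have p4 : 0 ≤ C₀ * ((q : ℝ) * ((T : ℝ) ^ 4 * ((T : ℝ) ^ 2 * η ^ 2))) := by positivity
    have p5 : 0 ≤ C₀ * ((q : ℝ) * ((T : ℝ) ^ 4 * η)) := by positivity
    nlinarith
  refine le_trans ?_ hfin
  obtain ⟨x1, x2⟩ := abs_le.1 b1
  obtain ⟨y1, y2⟩ := abs_le.1 b2
  obtain ⟨z1, z2⟩ := abs_le.1 hgood
  rw [abs_le]
  constructor <;> linarith

open Classical in
theorem t_EQUI (hKER : S_KER) : S_EQUI := by
  obtain ⟨C₀, hC₀, hK⟩ := hKER
  refine ⟨200000 + 100000000 * C₀, by positivity, ?_⟩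
  intro T q u η m hT hq hqT hu hη hη1 s s'
  obtain ⟨k1, k2, -⟩ := hK η hη hη1
  have hqz : (0 : ℤ) < q := by exact_mod_cast hq
  have hred : ∀ s : Fin 4 → ℤ, (box T).filter (fun t => ∀ i, (q : ℤ) ∣ t i - s i) =
      (box T).filter (fun t => ∀ i, (q : ℤ) ∣ t i - (fun j => s j % q) i) := by
    intro s
    refine filter_congr fun t _ => ?_
    refine forall_congr' fun i => ?_
    have h1 : (q : ℤ) ∣ s i - s i % q := by
      refine ⟨s i / q, ?_⟩
      have := Int.mul_ediv_add_emod (s i) q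
      linarith
    constructor
    · intro h
      have := dvd_add h h1
      rwa [show t i - s i + (s i - s i % q) = t i - s i % q by ring] at this
    · intro h
      have := dvd_sub h h1
      rwa [show t i - (fun j => s j % (q : ℤ)) i - (s i - s i % q) = t i - s i by simp only; ring] at this
  have h := equi_red hC₀ hT hq hqT hu hη (m := m) k1 k2 (fun j => s j % q) (fun j => s' j % q)
    (fun i => ⟨Int.emod_nonneg _ hqz.ne', Int.emod_lt_of_pos _ hqz⟩)
    (fun i => ⟨Int.emod_nonneg _ hqz.ne', Int.emod_lt_of_pos _ hqz⟩)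
  rw [← hred s, ← hred s'] at h
  convert h using 3

end Pool.Agent.D0H15.TW
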