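import Mathlib
import Pool.Agent.D0H11.TW.Stm

/-! Project TW, module 7 (MAIN): lower bound for the main term. -/

set_option autoImplicit false

namespace Pool.Agent.D0H15.TW

open Finset hiding box
open Filter Pool.Agent.D0H11.TW
open scoped Topology

lemma mem_box' {T : ℕ} {t : Fin 4 → ℤ} : t ∈ box T ↔ ∀ i, 0 ≤ t i ∧ t i < T := by
  unfold box
  rw [Fintype.mem_piFinset]
  simp only [mem_Ico]

/-- `3 ph + 5 ph + 7 ph` -/
def Rr (u : Fin 4 → ℤ) (p : ℤ × ℤ × ℤ) : ℤ := 3 * ph (u 1) p.1 + 5 * ph (u 2) p.2.1 + 7 * ph (u 3) p.2.2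

/-- the inner sum -/
noncomputable def inn (T : ℕ) (η : ℝ) (v : ℤ) (x : ℝ) : ℝ :=
  ∑ a ∈ Ico (0 : ℤ) T, ((840 * a + 420 + v : ℤ) : ℝ) * KK η (x - (ph v a : ℤ))

lemma sum_box (T : ℕ) (η : ℝ) (u : Fin 4 → ℤ) (m : ℤ) :
    ∑ t ∈ box T, wt u t * KK η (m - qf u t) =
      ∑ p ∈ Ico (0 : ℤ) T ×ˢ Ico (0 : ℤ) T ×ˢ Ico (0 : ℤ) T, inn T η (u 0) (m - Rr u p) := by
  have h1 : ∑ t ∈ box T, wt u t * KK η (m - qf u t) =
      ∑ p ∈ (Ico (0 : ℤ) T ×ˢ Ico (0 : ℤ) T ×ˢ Ico (0 : ℤ) T) ×ˢ Ico (0 : ℤ) T,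
        ((840 * p.2 + 420 + u 0 : ℤ) : ℝ) * KK η ((m - Rr u p.1) - (ph (u 0) p.2 : ℤ)) := by
    refine sum_nbij' (fun t => ((t 1, t 2, t 3), t 0)) (fun p => ![p.2, p.1.1, p.1.2.1, p.1.2.2]) ?_ ?_ ?_ ?_ ?_
    · intro t ht
      rw [mem_box'] at ht
      simp only [mem_product, mem_Ico]
      exact ⟨⟨ht 1, ht 2, ht 3⟩, ht 0⟩
    · intro p hp
      simp only [mem_product, mem_Ico] at hp
      obtain ⟨⟨h1, h2, h3⟩, h0⟩ := hp
      rw [mem_box']
      intro i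
      fin_cases i
      · exact h0
      · exact h1
      · exact h2
      · exact h3
    · intro t _
      funext i
      fin_cases i <;> rfl
    · intro p _
      rfl
    · intro t _
      unfold wt
      congr 1
      have : (qf u t : ℝ) = (Rr u (t 1, t 2, t 3) : ℤ) + (ph (u 0) (t 0) : ℤ) := by
        have : qf u t = Rr u (t 1, t 2, t 3) + ph (u 0) (t 0) := by
          unfold qf Rr cc
          rw [Fin.sum_univ_four]
          simp
          ring
        rw [this]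
        push_cast
        ring
      rw [this]
      congr 1
      ring
  rw [h1, sum_product]
  rfl

lemma sum_Ico_int (T : ℕ) (g : ℤ → ℝ) : ∑ a ∈ Ico (0 : ℤ) T, g a = ∑ n ∈ range T, g n := by
  refine sum_nbij' Int.toNat (fun n => (n : ℤ)) ?_ ?_ ?_ ?_ ?_
  · intro a ha
    rw [mem_Ico] at ha
    rw [mem_range]
    omega
  · intro n hn
    rw [mem_range] at hn
    rw [mem_Ico]
    omega
  · intro a ha
    rw [mem_Ico] at ha
    omega
  · intro n _
    simp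
  · intro a ha
    rw [mem_Ico] at ha
    congr 1
    omega

/-- the Riemann sum -/
lemma riemann {C₀ η : ℝ} (hC₀ : 0 < C₀) (hη : 0 < η)
    (hK2 : ∀ x y, |KK η x - KK η y| ≤ C₀ * η ^ 2 * |x - y|) {T : ℕ} (hT : 1 ≤ T) {v : ℤ} (hv : 0 ≤ v) (hv' : v < 840)
    (x : ℝ) : |inn T η v x - ∫ s in (0 : ℝ)..((ph v T : ℤ) : ℝ), KK η (x - s)| ≤
      4410000 * C₀ * ((T : ℝ) ^ 3 * η ^ 2) := by
  have hcont : Continuous (KK η) := by
    have hL : LipschitzWith (Real.toNNReal (C₀ * η ^ 2)) (KK η) := by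
      refine LipschitzWith.of_dist_le_mul fun a b => ?_
      rw [Real.coe_toNNReal _ (by positivity), Real.dist_eq, Real.dist_eq]
      exact hK2 a b
    exact hL.continuous
  have hcont' : Continuous fun s : ℝ => KK η (x - s) := hcont.comp (continuous_const.sub continuous_id)
  set P : ℕ → ℝ := fun n => ((ph v n : ℤ) : ℝ) with hP
  have h0 : P 0 = 0 := by
    simp [hP, ph]
  have hint : ∫ s in (0 : ℝ)..((ph v T : ℤ) : ℝ), KK η (x - s) =
      ∑ n ∈ range T, ∫ s in P n..P (n + 1), KK η (x - s) := by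
    have h1 := intervalIntegral.sum_integral_adjacent_intervals (f := fun s => KK η (x - s)) (a := P) (n := T)
      (μ := MeasureTheory.volume) (fun k _ => hcont'.intervalIntegrable _ _)
    rw [h1, h0]
  have hw : ∀ n : ℕ, P (n + 1) - P n = ((840 * (n : ℤ) + 420 + v : ℤ) : ℝ) := by
    intro n
    simp only [hP, ph]
    push_cast
    ring
  have hwb : ∀ n ∈ range T, 0 ≤ P (n + 1) - P n ∧ P (n + 1) - P n ≤ 2100 * T := by
    intro n hn
    rw [mem_range] at hn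
    rw [hw]
    constructor
    · exact_mod_cast (by omega : (0 : ℤ) ≤ 840 * (n : ℤ) + 420 + v)
    · exact_mod_cast (by omega : (840 * (n : ℤ) + 420 + v : ℤ) ≤ 2100 * T)
  unfold inn
  rw [sum_Ico_int, hint, ← sum_sub_distrib]
  refine (abs_sum_le_sum_abs _ _).trans ?_
  have hterm : ∀ n ∈ range T, |((840 * (n : ℤ) + 420 + v : ℤ) : ℝ) * KK η (x - (ph v n : ℤ)) -
      ∫ s in P n..P (n + 1), KK η (x - s)| ≤ 4410000 * C₀ * ((T : ℝ) ^ 2 * η ^ 2) := by
    intro n hn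
    obtain ⟨w0, w1⟩ := hwb n hn
    have e1 : ((840 * (n : ℤ) + 420 + v : ℤ) : ℝ) * KK η (x - (ph v n : ℤ)) =
        ∫ _s in P n..P (n + 1), KK η (x - P n) := by
      rw [intervalIntegral.integral_const, smul_eq_mul, hw]
    rw [e1, ← intervalIntegral.integral_sub (continuous_const.intervalIntegrable _ _)
      (hcont'.intervalIntegrable _ _)]
    have h2 := intervalIntegral.norm_integral_le_of_norm_le_const (a := P n) (b := P (n + 1))
      (f := fun s => KK η (x - P n) - KK η (x - s)) (C := C₀ * η ^ 2 * (P (n + 1) - P n)) (by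
        intro s hs
        rw [Set.uIoc_of_le (by linarith)] at hs
        rw [Real.norm_eq_abs]
        refine (hK2 _ _).trans ?_
        apply mul_le_mul_of_nonneg_left _ (by positivity)
        rw [show x - P n - (x - s) = s - P n by ring, abs_of_nonneg (by linarith [hs.1])]
        linarith [hs.2])
    rw [Real.norm_eq_abs, abs_of_nonneg w0] at h2
    refine h2.trans ?_
    have h3 : (P (n + 1) - P n) * (P (n + 1) - P n) ≤ (2100 * T) * (2100 * T) :=
      mul_le_mul w1 w1 w0 (by positivity)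
    calc C₀ * η ^ 2 * (P (n + 1) - P n) * (P (n + 1) - P n)
        = C₀ * η ^ 2 * ((P (n + 1) - P n) * (P (n + 1) - P n)) := by ring
      _ ≤ C₀ * η ^ 2 * ((2100 * T) * (2100 * T)) := mul_le_mul_of_nonneg_left h3 (by positivity)
      _ = _ := by ring
  refine (sum_le_card_nsmul _ _ _ hterm).trans (le_of_eq ?_)
  rw [card_range, nsmul_eq_mul]
  ring

/-- few values in a short interval -/
lemma few {v : ℤ} (hv : 0 ≤ v) {T : ℕ} {Δ y : ℝ} (hΔ : 0 < Δ) :
    ((((Ico (0 : ℤ) T).filter (fun c => |y - ((7 * ph v c : ℤ) : ℝ)| < Δ)).card : ℕ) : ℝ) ≤ √Δ + 1 := by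
  classical
  set S := (Ico (0 : ℤ) T).filter (fun c => |y - ((7 * ph v c : ℤ) : ℝ)| < Δ) with hS
  rcases S.eq_empty_or_nonempty with h0 | h0
  · rw [h0]
    simp only [card_empty, Nat.cast_zero]
    positivity
  set c0 := S.min' h0 with hc0
  have hc0S : c0 ∈ S := S.min'_mem h0
  obtain ⟨a1, a2⟩ := mem_filter.1 hc0S
  rw [mem_Ico] at a1
  have hsub : S ⊆ Ico c0 (c0 + ⌈√Δ⌉₊) := by
    intro c hc
    have h1 : c0 ≤ c := S.min'_le c hc
    obtain ⟨b1, b2⟩ := mem_filter.1 hc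
    rw [mem_Ico]
    refine ⟨h1, ?_⟩
    have h3 : (7 * ph v c - 7 * ph v c0 : ℤ) = 7 * ((c - c0) * (420 * (c + c0) + v)) := by
      unfold ph
      ring
    have h4 : (c - c0) ^ 2 ≤ (c - c0) * (420 * (c + c0) + v) := by
      rw [pow_two]
      apply mul_le_mul_of_nonneg_left _ (by omega)
      omega
    have h5 : ((7 * ph v c : ℤ) : ℝ) - ((7 * ph v c0 : ℤ) : ℝ) < 2 * Δ := by
      have := (abs_lt.1 b2)
      have := (abs_lt.1 a2)
      linarith
    have h6 : (((c - c0) ^ 2 : ℤ) : ℝ) * 7 ≤ ((7 * ph v c : ℤ) : ℝ) - ((7 * ph v c0 : ℤ) : ℝ) := by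
      have h7 : (c - c0) ^ 2 * 7 ≤ 7 * ph v c - 7 * ph v c0 := by
        rw [h3]
        linarith
      have h8 : (((c - c0) ^ 2 * 7 : ℤ) : ℝ) ≤ ((7 * ph v c - 7 * ph v c0 : ℤ) : ℝ) := by exact_mod_cast h7
      push_cast at h8 ⊢
      linarith
    have h7 : ((c - c0 : ℤ) : ℝ) ^ 2 < Δ := by
      push_cast at h6 ⊢
      push_cast at h5
      nlinarith
    have h8 : ((c - c0 : ℤ) : ℝ) < √Δ := Real.lt_sqrt_of_sq_lt h7
    have h9 : ((c - c0 : ℤ) : ℝ) < ((⌈√Δ⌉₊ : ℕ) : ℝ) := h8.trans_le (Nat.le_ceil _)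
    have h10 : c - c0 < ((⌈√Δ⌉₊ : ℕ) : ℤ) := by exact_mod_cast h9
    linarith
  have h1 := card_le_card hsub
  rw [Int.card_Ico] at h1
  have h2 : S.card ≤ ⌈√Δ⌉₊ := by
    refine h1.trans ?_
    simp
  calc (S.card : ℝ) ≤ (⌈√Δ⌉₊ : ℝ) := by exact_mod_cast h2
    _ ≤ √Δ + 1 := (Nat.ceil_lt_add_one (Real.sqrt_nonneg _)).le

/-- negative powers tend to zero -/
lemma neg_pow (s e : ℝ) (hs : 0 < s) (he : 0 < e) : ∀ᶠ T : ℕ in atTop, (T : ℝ) ^ (-s) ≤ e := by
  have h := (tendsto_rpow_neg_atTop hs).comp (tendsto_natCast_atTop_atTop (R := ℝ))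
  exact h.eventually (ge_mem_nhds he)

open Classical in
theorem t_MAIN (hKER : S_KER) : S_MAIN := by
  obtain ⟨C₀, hC₀, hK⟩ := hKER
  intro κ B hκ hκ1 hB
  have hB0 : 0 < B := by linarith
  set c' : ℝ := 1 / (200 * B) with hc'
  have hc'0 : 0 < c' := by positivity
  have hc'1 : c' ≤ 1 / 200 := by
    rw [hc']
    apply one_div_le_one_div_of_le (by norm_num)
    linarith
  set δ : ℝ := c' ^ 3 / 16 with hδ
  have hδ0 : 0 < δ := by positivity
  have hδ1 : δ ≤ 1 / 2 := by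
    have : c' ^ 3 ≤ 1 := pow_le_one₀ hc'0.le (by linarith)
    rw [hδ]
    linarith
  have ev : ∀ᶠ T : ℕ in atTop, 1 ≤ T ∧ C₀ * (T : ℝ) ^ (-(κ / 2)) ≤ δ / 2 ∧
      4410000 * C₀ * (T : ℝ) ^ (-(1 - 2 * κ)) ≤ δ / 2 ∧ (T : ℝ) ^ (-(κ / 2)) ≤ 1 / (2 * B) ∧
      (C₀ + 1) * (T : ℝ) ^ (-(κ / 4)) ≤ δ / 2 ∧ (C₀ + 1) * (T : ℝ) ^ (-(1 : ℝ)) ≤ δ / 2 := by
    filter_upwards [eventually_ge_atTop 1, neg_pow (κ / 2) (δ / (2 * C₀)) (by positivity) (by positivity),
      neg_pow (1 - 2 * κ) (δ / (2 * (4410000 * C₀))) (by linarith) (by positivity),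
      neg_pow (κ / 2) (1 / (2 * B)) (by positivity) (by positivity),
      neg_pow (κ / 4) (δ / (2 * (C₀ + 1))) (by positivity) (by positivity),
      neg_pow 1 (δ / (2 * (C₀ + 1))) one_pos (by positivity)] with T h1 h2 h3 h4 h5 h6
    refine ⟨h1, ?_, ?_, h4, ?_, ?_⟩
    · calc C₀ * (T : ℝ) ^ (-(κ / 2)) ≤ C₀ * (δ / (2 * C₀)) := by gcongr
        _ = δ / 2 := by field_simp
    · calc 4410000 * C₀ * (T : ℝ) ^ (-(1 - 2 * κ)) ≤ 4410000 * C₀ * (δ / (2 * (4410000 * C₀))) := by gcongr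
        _ = δ / 2 := by field_simp
    · calc (C₀ + 1) * (T : ℝ) ^ (-(κ / 4)) ≤ (C₀ + 1) * (δ / (2 * (C₀ + 1))) := by gcongr
        _ = δ / 2 := by field_simp
    · calc (C₀ + 1) * (T : ℝ) ^ (-(1 : ℝ)) ≤ (C₀ + 1) * (δ / (2 * (C₀ + 1))) := by gcongr
        _ = δ / 2 := by field_simp
  obtain ⟨T0, hT0⟩ := eventually_atTop.1 ev
  refine ⟨c' ^ 3 / 8, by positivity, T0, ?_⟩
  intro T hT u hu m hm1 hm2
  obtain ⟨hT1, a1, a2, a3, a4, a5⟩ := hT0 T hT
  set t : ℝ := (T : ℝ) with ht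
  have ht1 : 1 ≤ t := by rw [ht]; exact_mod_cast hT1
  have ht0 : 0 < t := by linarith
  set η : ℝ := t ^ (κ - 2) with hη
  have hη0 : 0 < η := Real.rpow_pos_of_pos ht0 _
  have hη1 : η ≤ 1 := Real.rpow_le_one_of_one_le_of_nonpos ht1 (by linarith)
  set Δ : ℝ := t ^ (2 - κ / 2) with hΔ
  have hΔ0 : 0 < Δ := Real.rpow_pos_of_pos ht0 _
  obtain ⟨-, k2, k3⟩ := hK η hη0 hη1
  have hηΔ : C₀ / (η * Δ) = C₀ * t ^ (-(κ / 2)) := by
    rw [hη, hΔ, ← Real.rpow_add ht0, show κ - 2 + (2 - κ / 2) = κ / 2 by ring, Real.rpow_neg ht0.le,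
      div_eq_mul_inv]
  have hΔt : Δ = t ^ 2 * t ^ (-(κ / 2)) := by
    rw [hΔ, show (2 - κ / 2 : ℝ) = 2 + -(κ / 2) by ring, Real.rpow_add ht0]
    norm_num
  have hΔ2 : Δ ≤ t ^ 2 / (2 * B) := by
    rw [hΔt]
    calc t ^ 2 * t ^ (-(κ / 2)) ≤ t ^ 2 * (1 / (2 * B)) := by gcongr
      _ = _ := by ring
  have hΔ3 : Δ ≤ 20 * t ^ 2 := by
    refine hΔ2.trans ?_
    rw [div_le_iff₀ (by positivity)]
    nlinarith [sq_nonneg t]
  have herr : 4410000 * C₀ * (t ^ 3 * η ^ 2) ≤ δ / 2 := by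
    refine le_trans (le_of_eq ?_) a2
    congr 1
    rw [hη, ← Real.rpow_natCast, ← Real.rpow_natCast, ← Real.rpow_mul ht0.le, ← Real.rpow_add ht0]
    congr 1
    push_cast
    ring
  -- the inner sums
  have hu0 := hu 0
  set hi : ℝ := ((ph (u 0) T : ℤ) : ℝ) with hhi
  have hhi1 : 420 * t ^ 2 ≤ hi := by
    have : (420 * (T : ℤ) ^ 2 : ℤ) ≤ ph (u 0) T := by
      unfold ph
      have := mul_nonneg hu0.1 (Int.natCast_nonneg T)
      linarith
    have h2 : ((420 * (T : ℤ) ^ 2 : ℤ) : ℝ) ≤ hi := by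
      rw [hhi]
      exact_mod_cast this
    push_cast at h2
    rw [ht]
    exact h2
  have hhi0 : (0 : ℝ) ≤ hi := by nlinarith [sq_nonneg t]
  have hph : ∀ i : Fin 4, ∀ a : ℤ, 0 ≤ a → 0 ≤ ph (u i) a := by
    intro i a ha
    unfold ph
    have := mul_nonneg (hu i).1 ha
    positivity
  set J := Ico (0 : ℤ) T ×ˢ Ico (0 : ℤ) T ×ˢ Ico (0 : ℤ) T with hJ
  have hR0 : ∀ p ∈ J, 0 ≤ Rr u p := by
    intro p hp
    simp only [hJ, mem_product, mem_Ico] at hp
    have := hph 1 p.1 hp.1.1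
    have := hph 2 p.2.1 hp.2.1.1
    have := hph 3 p.2.2 hp.2.2.1
    unfold Rr
    linarith
  have hinn : ∀ p ∈ J, (1 / 2 : ℝ) * (if (Rr u p : ℝ) ≤ m - Δ then 1 else 0) -
      (C₀ + 1) * (if |(m : ℝ) - Rr u p| < Δ then 1 else 0) - δ ≤ inn T η (u 0) (m - Rr u p) := by
    intro p hp
    have hr := riemann hC₀ hη0 k2 hT1 hu0.1 hu0.2 ((m : ℝ) - Rr u p)
    obtain ⟨q1, q2, q3⟩ := k3 0 hi ((m : ℝ) - Rr u p) Δ hhi0 hΔ0
    rw [hηΔ] at q2 q3
    have hr' := (abs_le.1 (hr.trans herr)).1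
    have hRp : (0 : ℝ) ≤ Rr u p := by exact_mod_cast hR0 p hp
    by_cases h1 : (Rr u p : ℝ) ≤ m - Δ
    · rw [if_pos h1, if_neg (by rw [not_lt, abs_of_nonneg (by linarith)]; linarith)]
      have h2 := (abs_le.1 (q2 (by linarith) (by linarith))).1
      linarith
    · rw [if_neg h1]
      by_cases h2 : |(m : ℝ) - Rr u p| < Δ
      · rw [if_pos h2]
        have h3 := (abs_le.1 q1).1
        linarith
      · rw [if_neg h2]
        have h3 : (m : ℝ) - Rr u p ≤ 0 - Δ := by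
          rw [not_lt] at h2
          rcases le_abs.1 h2 with h | h <;> linarith
        have h4 := (abs_le.1 (q3 (Or.inl h3))).1
        linarith
  -- the number of small triples
  have hN1 : (c' * t) ^ 3 ≤ ∑ p ∈ J, (if (Rr u p : ℝ) ≤ m - Δ then (1 : ℝ) else 0) := by
    set M : ℕ := ⌊c' * t⌋₊ with hM
    have hM1 : (M : ℝ) ≤ c' * t := Nat.floor_le (by positivity)
    have hM2 : c' * t ≤ M + 1 := (Nat.lt_floor_add_one _).le
    have hsub : Icc (0 : ℤ) M ×ˢ Icc (0 : ℤ) M ×ˢ Icc (0 : ℤ) M ⊆ J.filter (fun p => (Rr u p : ℝ) ≤ m - Δ) := by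
      intro p hp
      simp only [mem_product, mem_Icc] at hp
      obtain ⟨⟨p1, p2⟩, ⟨p3, p4⟩, p5, p6⟩ := hp
      have hMT : (M : ℤ) < T := by
        have : (M : ℝ) < T := by
          calc (M : ℝ) ≤ c' * t := hM1
            _ ≤ 1 / 200 * t := by gcongr
            _ < t := by linarith
        exact_mod_cast this
      rw [mem_filter]
      constructor
      · simp only [hJ, mem_product, mem_Ico]
        exact ⟨⟨p1, by omega⟩, ⟨p3, by omega⟩, p5, by omega⟩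
      · have hphb : ∀ i : Fin 4, ∀ a : ℤ, 0 ≤ a → a ≤ M → (ph (u i) a : ℝ) ≤ 1260 * (c' * t) ^ 2 := by
          intro i a ha haM
          have h1 : ph (u i) a ≤ 1260 * a ^ 2 := by
            unfold ph
            have h2 := (hu i).2
            have h3 : a ≤ a ^ 2 := by nlinarith [sq_nonneg (a - 1), mul_nonneg ha ha, Int.le_self_sq a]
            nlinarith
          have h2 : (a : ℝ) ≤ c' * t := le_trans (by exact_mod_cast haM) hM1
          have h3 : (0 : ℝ) ≤ a := by exact_mod_cast ha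
          calc (ph (u i) a : ℝ) ≤ ((1260 * a ^ 2 : ℤ) : ℝ) := by exact_mod_cast h1
            _ = 1260 * (a : ℝ) ^ 2 := by push_cast; ring
            _ ≤ 1260 * (c' * t) ^ 2 := by gcongr
        have g1 := hphb 1 p.1 p1 p2
        have g2 := hphb 2 p.2.1 p3 p4
        have g3 := hphb 3 p.2.2 p5 p6
        have g4 : (Rr u p : ℝ) ≤ 18900 * (c' * t) ^ 2 := by
          unfold Rr
          push_cast
          linarith
        have g5 : 18900 * (c' * t) ^ 2 ≤ t ^ 2 / (2 * B) := by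
          rw [hc']
          have : 18900 * (1 / (200 * B) * t) ^ 2 = (18900 / 40000) * (t ^ 2 / (B * B)) := by
            field_simp
            ring
          rw [this]
          have h6 : t ^ 2 / (B * B) ≤ t ^ 2 / B := by
            apply div_le_div_of_nonneg_left (by positivity) hB0
            nlinarith
          have h7 : t ^ 2 / (2 * B) = 1 / 2 * (t ^ 2 / B) := by
            field_simp
          rw [h7]
          have h8 : 0 ≤ t ^ 2 / B := by positivity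
          linarith
        have g6 : t ^ 2 / B = t ^ 2 / (2 * B) + t ^ 2 / (2 * B) := by
          field_simp
          ring
        linarith
    have h1 := card_le_card hsub
    have h2 : (M + 1) ^ 3 ≤ (J.filter (fun p => (Rr u p : ℝ) ≤ m - Δ)).card := by
      refine le_trans (le_of_eq ?_) h1
      rw [card_product, card_product]
      simp
      ring
    have h3 : ∑ p ∈ J, (if (Rr u p : ℝ) ≤ m - Δ then (1 : ℝ) else 0) =
        ((J.filter (fun p => (Rr u p : ℝ) ≤ m - Δ)).card : ℝ) := by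
      rw [← sum_filter, sum_const, nsmul_eq_mul, mul_one]
    rw [h3]
    calc (c' * t) ^ 3 ≤ ((M : ℝ) + 1) ^ 3 := pow_le_pow_left₀ (by positivity) hM2 3
      _ ≤ _ := by exact_mod_cast h2
  -- the number of boundary triples
  have hN2 : ∑ p ∈ J, (if |(m : ℝ) - Rr u p| < Δ then (1 : ℝ) else 0) ≤ t ^ 2 * (√Δ + 1) := by
    rw [hJ, sum_product]
    have h1 : ∀ a ∈ Ico (0 : ℤ) T, ∑ q ∈ Ico (0 : ℤ) T ×ˢ Ico (0 : ℤ) T,
        (if |(m : ℝ) - Rr u (a, q)| < Δ then (1 : ℝ) else 0) ≤ t * (√Δ + 1) := by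
      intro a _
      rw [sum_product]
      have h2 : ∀ b ∈ Ico (0 : ℤ) T, ∑ c ∈ Ico (0 : ℤ) T,
          (if |(m : ℝ) - Rr u (a, b, c)| < Δ then (1 : ℝ) else 0) ≤ √Δ + 1 := by
        intro b _
        rw [← sum_filter, sum_const, nsmul_eq_mul, mul_one]
        have h3 := few (hu 3).1 (T := T) (y := (m : ℝ) - 3 * ph (u 1) a - 5 * ph (u 2) b) hΔ0
        refine le_trans (le_of_eq ?_) h3
        congr 2
        refine filter_congr fun c _ => ?_
        have h4 : (m : ℝ) - Rr u (a, b, c) = (m : ℝ) - 3 * ph (u 1) a - 5 * ph (u 2) b - ((7 * ph (u 3) c : ℤ) : ℝ) := by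
          unfold Rr
          push_cast
          ring
        rw [h4]
      refine (sum_le_card_nsmul _ _ _ h2).trans (le_of_eq ?_)
      rw [nsmul_eq_mul, Int.card_Ico]
      simp [ht]
    refine (sum_le_card_nsmul _ _ _ h1).trans (le_of_eq ?_)
    rw [nsmul_eq_mul, Int.card_Ico]
    simp [ht]
    ring
  have hcardJ : (J.card : ℝ) = t ^ 3 := by
    rw [hJ, card_product, card_product, Int.card_Ico]
    simp [ht]
    ring
  have hsq : (C₀ + 1) * (t ^ 2 * (√Δ + 1)) ≤ δ * t ^ 3 := by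
    have h1 : √Δ = t * t ^ (-(κ / 4)) := by
      rw [hΔ, Real.sqrt_eq_rpow, ← Real.rpow_mul ht0.le, show (2 - κ / 2) * (1 / 2) = 1 + -(κ / 4) by ring,
        Real.rpow_add ht0, Real.rpow_one]
    have h2 : (1 : ℝ) = t * t ^ (-(1 : ℝ)) := by
      rw [Real.rpow_neg_one]
      field_simp
    have h3 : (C₀ + 1) * (t ^ 2 * (√Δ + 1)) =
        t ^ 3 * ((C₀ + 1) * t ^ (-(κ / 4)) + (C₀ + 1) * t ^ (-(1 : ℝ))) := by
      rw [h1]
      nth_rewrite 2 [h2]
      ring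
    rw [h3]
    have h4 : 0 ≤ t ^ 3 := by positivity
    nlinarith
  rw [sum_box T η u m]
  refine le_trans ?_ (sum_le_sum hinn)
  rw [sum_sub_distrib, sum_sub_distrib, ← mul_sum, ← mul_sum, sum_const, nsmul_eq_mul, hcardJ]
  have hC1 : (C₀ + 1) * ∑ p ∈ J, (if |(m : ℝ) - Rr u p| < Δ then (1 : ℝ) else 0) ≤ δ * t ^ 3 :=
    (mul_le_mul_of_nonneg_left hN2 (by positivity)).trans hsq
  have h5 : (c' * t) ^ 3 = c' ^ 3 * t ^ 3 := by ring
  rw [h5] at hN1
  have h6 : 0 ≤ c' ^ 3 * t ^ 3 := by positivity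
  have h7 : δ * t ^ 3 = c' ^ 3 * t ^ 3 / 16 := by
    rw [hδ]
    ring
  rw [h7] at hC1
  have h8 : t ^ 3 * δ = c' ^ 3 * t ^ 3 / 16 := by
    rw [hδ]
    ring
  rw [h8]
  have h9 : c' ^ 3 / 8 * t ^ 3 = c' ^ 3 * t ^ 3 / 8 := by ring
  rw [h9]
  linarith

end Pool.Agent.D0H15.TW
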